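import Mathlib

set_option autoImplicit false

/-!
# A probability measure from finite combinations (Mazur-Orlicz and Riesz)
-/

open MeasureTheory Filter Topology Set
open scoped NNReal ENNReal CompactlySupported

namespace Pool.Agent.Y375.TG

variable {X : Type} [TopologicalSpace X] [CompactSpace X] [T2Space X] [Nonempty X]

/-- the maximum of a continuous function -/
noncomputable def pm (f : C(X, ℝ)) : ℝ := sSup (Set.range f)

theorem pm_spec (f : C(X, ℝ)) : ∃ x, pm f = f x := by
  obtain ⟨x, _, hx⟩ := isCompact_univ.exists_isMaxOn univ_nonempty f.continuous.continuousOn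
  refine ⟨x, ?_⟩
  have : IsGreatest (Set.range f) (f x) := by
    refine ⟨⟨x, rfl⟩, ?_⟩
    rintro _ ⟨y, rfl⟩
    exact hx (mem_univ y)
  exact this.csSup_eq

theorem le_pm (f : C(X, ℝ)) (x : X) : f x ≤ pm f := by
  obtain ⟨y, _, hy⟩ := isCompact_univ.exists_isMaxOn univ_nonempty f.continuous.continuousOn
  have h : IsGreatest (Set.range f) (f y) := by
    refine ⟨⟨y, rfl⟩, ?_⟩
    rintro _ ⟨z, rfl⟩
    exact hy (mem_univ z)
  unfold pm
  rw [h.csSup_eq]
  exact hy (mem_univ x)

theorem pm_le {f : C(X, ℝ)} {a : ℝ} (h : ∀ x, f x ≤ a) : pm f ≤ a := by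
  obtain ⟨x, hx⟩ := pm_spec f
  rw [hx]
  exact h x

theorem pm_add (f g : C(X, ℝ)) : pm (f + g) ≤ pm f + pm g :=
  pm_le fun x => by
    simp only [ContinuousMap.add_apply]
    exact add_le_add (le_pm f x) (le_pm g x)

theorem pm_smul {a : ℝ} (ha : 0 ≤ a) (f : C(X, ℝ)) : pm (a • f) ≤ a * pm f :=
  pm_le fun x => by
    simp only [ContinuousMap.smul_apply, smul_eq_mul]
    exact mul_le_mul_of_nonneg_left (le_pm f x) ha

section

variable {I : Type} (F : I → C(X, ℝ)) (y : I → ℝ)

/-- the nonnegative finite combinations -/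
def Pc (I : Type) : Type := {c : I →₀ ℝ // ∀ i, 0 ≤ c i}

instance : Nonempty (Pc I) := ⟨⟨0, fun i => by simp⟩⟩

/-- the sublinear functional -/
noncomputable def Nf (f : C(X, ℝ)) : ℝ :=
  ⨅ c : Pc I, (pm (f + Finsupp.linearCombination ℝ F c.1) - Finsupp.linearCombination ℝ y c.1)

variable {F y}

theorem Nf_bdd (h : ∀ c : Pc I, Finsupp.linearCombination ℝ y c.1 ≤
    pm (Finsupp.linearCombination ℝ F c.1)) (f : C(X, ℝ)) :
    BddBelow (Set.range fun c : Pc I =>
      (pm (f + Finsupp.linearCombination ℝ F c.1) - Finsupp.linearCombination ℝ y c.1)) := by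
  refine ⟨-pm (-f), ?_⟩
  rintro _ ⟨c, rfl⟩
  have h1 := h c
  have h2 := pm_add (f + Finsupp.linearCombination ℝ F c.1) (-f)
  have h3 : f + Finsupp.linearCombination ℝ F c.1 + -f = Finsupp.linearCombination ℝ F c.1 := by
    abel
  rw [h3] at h2
  simp only
  linarith

theorem Nf_le (h : ∀ c : Pc I, Finsupp.linearCombination ℝ y c.1 ≤
    pm (Finsupp.linearCombination ℝ F c.1)) (f : C(X, ℝ)) (c : Pc I) :
    Nf F y f ≤ pm (f + Finsupp.linearCombination ℝ F c.1) - Finsupp.linearCombination ℝ y c.1 :=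
  ciInf_le (Nf_bdd h f) c

theorem Nf_smul_le (h : ∀ c : Pc I, Finsupp.linearCombination ℝ y c.1 ≤
    pm (Finsupp.linearCombination ℝ F c.1)) {a : ℝ} (ha : 0 < a) (f : C(X, ℝ)) :
    Nf F y (a • f) ≤ a * Nf F y f := by
  have h1 : a * Nf F y f = ⨅ c : Pc I, a * (pm (f + Finsupp.linearCombination ℝ F c.1) -
      Finsupp.linearCombination ℝ y c.1) := Real.mul_iInf_of_nonneg ha.le _
  rw [h1]
  refine le_ciInf fun c => ?_
  have hc : ∀ i, 0 ≤ (a • c.1) i := fun i => by
    simp only [Finsupp.smul_apply, smul_eq_mul]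
    exact mul_nonneg ha.le (c.2 i)
  refine (Nf_le h (a • f) ⟨a • c.1, hc⟩).trans ?_
  simp only [map_smul, smul_eq_mul]
  rw [← smul_add, mul_sub]
  exact sub_le_sub_right (pm_smul ha.le _) _

theorem Nf_smul (h : ∀ c : Pc I, Finsupp.linearCombination ℝ y c.1 ≤
    pm (Finsupp.linearCombination ℝ F c.1)) {a : ℝ} (ha : 0 < a) (f : C(X, ℝ)) :
    Nf F y (a • f) = a * Nf F y f := by
  refine le_antisymm (Nf_smul_le h ha f) ?_
  have h1 := Nf_smul_le h (inv_pos.2 ha) (a • f)
  rw [smul_smul, inv_mul_cancel₀ ha.ne', one_smul] at h1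
  have h2 := mul_le_mul_of_nonneg_left h1 ha.le
  rw [← mul_assoc, mul_inv_cancel₀ ha.ne', one_mul] at h2
  exact h2

theorem Nf_add (h : ∀ c : Pc I, Finsupp.linearCombination ℝ y c.1 ≤
    pm (Finsupp.linearCombination ℝ F c.1)) (f g : C(X, ℝ)) :
    Nf F y (f + g) ≤ Nf F y f + Nf F y g := by
  have key : ∀ c d : Pc I, Nf F y (f + g) ≤
      (pm (f + Finsupp.linearCombination ℝ F c.1) - Finsupp.linearCombination ℝ y c.1) +
      (pm (g + Finsupp.linearCombination ℝ F d.1) - Finsupp.linearCombination ℝ y d.1) := by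
    intro c d
    have hc : ∀ i, 0 ≤ (c.1 + d.1) i := fun i => by
      simp only [Finsupp.add_apply]
      exact add_nonneg (c.2 i) (d.2 i)
    refine (Nf_le h (f + g) ⟨c.1 + d.1, hc⟩).trans ?_
    simp only [map_add]
    have h1 := pm_add (f + Finsupp.linearCombination ℝ F c.1)
      (g + Finsupp.linearCombination ℝ F d.1)
    have h2 : f + Finsupp.linearCombination ℝ F c.1 + (g + Finsupp.linearCombination ℝ F d.1) =
        f + g + (Finsupp.linearCombination ℝ F c.1 + Finsupp.linearCombination ℝ F d.1) := by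
      abel
    rw [h2] at h1
    linarith
  have h1 : ∀ c : Pc I, Nf F y (f + g) - (pm (f + Finsupp.linearCombination ℝ F c.1) -
      Finsupp.linearCombination ℝ y c.1) ≤ Nf F y g := by
    intro c
    refine le_ciInf fun d => ?_
    have := key c d
    linarith
  have h2 : Nf F y (f + g) - Nf F y g ≤ Nf F y f := by
    refine le_ciInf fun c => ?_
    have := h1 c
    linarith
  linarith

/-- **The measure.** -/
theorem exists_measure [MeasurableSpace X] [BorelSpace X]
    (h : ∀ c : Pc I, ∃ x, Finsupp.linearCombination ℝ y c.1 ≤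
      Finsupp.linearCombination ℝ F c.1 x) :
    ∃ μ : Measure X, IsProbabilityMeasure μ ∧ ∀ i, y i ≤ ∫ x, F i x ∂μ := by
  have h' : ∀ c : Pc I, Finsupp.linearCombination ℝ y c.1 ≤
      pm (Finsupp.linearCombination ℝ F c.1) := by
    intro c
    obtain ⟨x, hx⟩ := h c
    exact hx.trans (le_pm _ x)
  have hzero : Nf F y 0 = 0 := by
    have h1 := Nf_smul h' (a := 2) (by norm_num) 0
    rw [smul_zero] at h1
    linarith
  obtain ⟨g, -, hg⟩ := exists_extension_of_le_sublinear
    ({ domain := (⊥ : Submodule ℝ C(X, ℝ)), toFun := 0 } : C(X, ℝ) →ₗ.[ℝ] ℝ) (Nf F y)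
    (fun a ha f => Nf_smul h' ha f) (fun f g => Nf_add h' f g) (by
    rintro ⟨f, hf⟩
    have hf0 : f = 0 := (Submodule.mem_bot ℝ).1 hf
    subst hf0
    show (0 : ℝ) ≤ Nf F y 0
    rw [hzero])
  have hgp : ∀ f, g f ≤ pm f := by
    intro f
    have h1 := Nf_le h' f ⟨0, fun i => by simp⟩
    simp only [map_zero, add_zero, sub_zero] at h1
    exact (hg f).trans h1
  have hpos : ∀ f : C(X, ℝ), 0 ≤ f → 0 ≤ g f := by
    intro f hf
    have h1 := hgp (-f)
    have h2 : pm (-f) ≤ 0 := pm_le fun x => by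
      simp only [ContinuousMap.neg_apply]
      have h3 : (0 : ℝ) ≤ f x := hf x
      linarith
    rw [map_neg] at h1
    linarith
  have hone : g 1 = 1 := by
    have h1 : g 1 ≤ 1 := (hgp 1).trans (pm_le fun x => by simp)
    have h2 := (hgp (-1)).trans (pm_le (a := -1) fun x => by simp)
    rw [map_neg] at h2
    linarith
  have hF : ∀ i, y i ≤ g (F i) := by
    intro i
    have hc : ∀ j, 0 ≤ (Finsupp.single i (1 : ℝ)) j := fun j => by
      classical
      rw [Finsupp.single_apply]
      split_ifs <;> norm_num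
    have h1 := (hg (-F i)).trans (Nf_le h' (-F i) ⟨Finsupp.single i 1, hc⟩)
    simp only [Finsupp.linearCombination_single, one_smul, neg_add_cancel, smul_eq_mul,
      one_mul, map_neg] at h1
    have h2 : pm (0 : C(X, ℝ)) ≤ 0 := pm_le fun x => by simp
    linarith
  -- Riesz
  let Λ0 : C_c(X, ℝ) →ₗ[ℝ] ℝ :=
    { toFun := fun f => g f.toContinuousMap
      map_add' := by
        intro f₁ f₂
        exact map_add g f₁.toContinuousMap f₂.toContinuousMap
      map_smul' := by
        intro a f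
        exact map_smul g a f.toContinuousMap }
  let Λ : C_c(X, ℝ) →ₚ[ℝ] ℝ := PositiveLinearMap.mk₀ Λ0 (fun f hf => hpos _ (fun x => hf x))
  have hint : ∀ f : C(X, ℝ), ∫ x, f x ∂(RealRMK.rieszMeasure Λ) = g f := by
    intro f
    exact RealRMK.integral_rieszMeasure Λ ⟨f, HasCompactSupport.of_compactSpace _⟩
  have hfin : IsFiniteMeasure (RealRMK.rieszMeasure Λ) := by
    have : (RealRMK.rieszMeasure Λ).Regular := inferInstance
    exact ⟨isCompact_univ.measure_lt_top⟩
  have hprob : IsProbabilityMeasure (RealRMK.rieszMeasure Λ) := by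
    have h1 := hint 1
    simp only [ContinuousMap.one_apply, integral_const, smul_eq_mul, mul_one] at h1
    rw [hone] at h1
    refine ⟨?_⟩
    rw [Measure.real, ENNReal.toReal_eq_one_iff] at h1
    exact h1
  refine ⟨RealRMK.rieszMeasure Λ, hprob, fun i => ?_⟩
  rw [hint]
  exact hF i

end

end Pool.Agent.Y375.TG
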