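import Pool.Agent.H488R3.Real

set_option autoImplicit false

/-!
# Linear combinations of homomorphism densities: reduction to `T`-shapes

The arguments of `Pool.Agent.H488R3` for one graph, for sums `∑ c i * (density of G i)` with
nonnegative coefficients.
-/

namespace Pool.Agent.Y375.TG

open Finset Filter Topology Pool.Agent.H488R3
open scoped Classical

variable {I : Type} {V : I → Type} [∀ i, Fintype (V i)] (G : ∀ i, SimpleGraph (V i))
  (s : Finset I) (c : I → ℝ)

/-- the combination of the values -/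
noncomputable def val (L : List (Bool × ℝ)) : ℝ := ∑ i ∈ s, c i * ev (G i) L univ

def GoodF (L : List (Bool × ℝ)) : Prop :=
  ∃ r b y : ℝ, 0 ≤ r ∧ 0 ≤ b ∧ 0 ≤ y ∧ mass [(true, r), (false, b), (true, y)] = mass L ∧
    en [(true, r), (false, b), (true, y)] = en L ∧
    val G s c L ≤ val G s c [(true, r), (false, b), (true, y)]

variable {G s c}

lemma GoodF.mono {L L' : List (Bool × ℝ)} (h : GoodF G s c L')
    (h1 : mass L' = mass L) (h2 : en L' = en L) (h3 : val G s c L ≤ val G s c L') :
    GoodF G s c L := by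
  obtain ⟨r, b, y, hr, hb, hy, m, e, v⟩ := h
  exact ⟨r, b, y, hr, hb, hy, m.trans h1, e.trans h2, h3.trans v⟩

variable (G s c)

lemma conv_fam (hc : ∀ i ∈ s, 0 ≤ c i) {S : Set ℝ} (hS : Convex ℝ S) (f : I → ℝ → ℝ)
    (h : ∀ i ∈ s, ConvexOn ℝ S (f i)) : ConvexOn ℝ S (fun x => ∑ i ∈ s, c i * f i x) := by
  refine convexOn_sum s S hS _ fun i hi => ?_
  exact (h i hi).smul (hc i hi)

/-- move (a) -/
lemma moveA (hc : ∀ i ∈ s, 0 ≤ c i) {b' r b r' : ℝ} (hb' : 0 < b') (hr : 0 < r) (hb : 0 < b)
    (hr' : 0 < r') {L : List (Bool × ℝ)} (hL : NN L) (F : ∀ i, (Finset (V i) → ℝ) → ℝ)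
    (hF : ∀ i, ∀ (S : Set ℝ), Convex ℝ S → ∀ Φ : ℝ → Finset (V i) → ℝ,
      (∀ U, ConvexOn ℝ S (fun s => Φ s U)) → ConvexOn ℝ S (fun s => F i (Φ s))) :
    ∑ i ∈ s, c i * F i (ev (G i) ((false, b') :: (true, r) :: (false, b) :: (true, r') :: L)) ≤
      ∑ i ∈ s, c i * F i (ev (G i) ((true, r * b / (b + b')) :: (false, b + b') ::
        (true, r + r' - r * b / (b + b')) :: L)) ∨
    ∑ i ∈ s, c i * F i (ev (G i) ((false, b') :: (true, r) :: (false, b) :: (true, r') :: L)) ≤
      ∑ i ∈ s, c i * F i (ev (G i) ((false, b + b' - r * b / (r + r')) :: (true, r + r') ::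
        (false, r * b / (r + r')) :: L)) := by
  obtain ⟨h1, h2, h3, h4⟩ := move_a_data hb' hr hb hr'
  have hcv : ConvexOn ℝ (Set.Ioi 0) (fun x => ∑ i ∈ s, c i * F i
      (opI (G i) ((b + b') - (r * b) / x) (opD x (opI (G i) ((r * b) / x)
        (opD ((r + r') - x) (ev (G i) L)))))) := by
    refine conv_fam s c hc (convex_Ioi 0) _ fun i _ => ?_
    exact hF i (Set.Ioi 0) (convex_Ioi 0)
      (fun x => opI (G i) ((b + b') - (r * b) / x) (opD x (opI (G i) ((r * b) / x)
        (opD ((r + r') - x) (ev (G i) L)))))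
      (fun U => conv_four (G i) (by positivity) (by positivity) (by positivity)
        (ev_nonneg (G i) hL) U)
  have hle := hcv.le_max_of_mem_Icc (x := r * b / (b + b')) (y := r + r') (z := r)
    h1 (show (0:ℝ) < r + r' by positivity) ⟨h2, h3⟩
  have e0 : (b + b') - (r * b) / r = b' := by field_simp; ring
  have e1 : (r * b) / r = b := by field_simp
  have e2 : (r + r') - r = r' := by ring
  have e3 : (b + b') - (r * b) / (r * b / (b + b')) = 0 := by field_simp; ring
  have e4 : (r * b) / (r * b / (b + b')) = b + b' := by field_simp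
  have e5 : (r + r') - (r + r') = 0 := by ring
  simp only [e0, e2, e3, e5, opI_zero, opD_zero] at hle
  simp only [e1, e4] at hle
  rcases le_max_iff.1 hle with h | h
  · left; simpa only [ev_t, ev_f] using h
  · right; simpa only [ev_t, ev_f] using h

/-- move (b) -/
lemma moveB (hc0 : ∀ i ∈ s, 0 ≤ c i) {b' r b : ℝ} (hb' : 0 < b') (hr : 0 < r) (hb : 0 < b)
    (F : ∀ i, (Finset (V i) → ℝ) → ℝ)
    (hF : ∀ i, ∀ (S : Set ℝ), Convex ℝ S → ∀ Φ : ℝ → Finset (V i) → ℝ,
      (∀ U, ConvexOn ℝ S (fun s => Φ s U)) → ConvexOn ℝ S (fun s => F i (Φ s))) :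
    ∃ k d : ℝ, k = r ^ 2 + 2 * r * b ∧ d = b' + b + r ∧ 0 < k ∧ Real.sqrt k ≤ d ∧
    (∑ i ∈ s, c i * F i (ev (G i) [(false, b'), (true, r), (false, b)]) ≤
      ∑ i ∈ s, c i * F i (ev (G i) [(false, d - Real.sqrt k), (true, Real.sqrt k)]) ∨
     ∑ i ∈ s, c i * F i (ev (G i) [(false, b'), (true, r), (false, b)]) ≤
      ∑ i ∈ s, c i * F i (ev (G i) [(true, rr k d), (false, bb k d)])) := by
  obtain ⟨k, hk⟩ : ∃ k, k = r ^ 2 + 2 * r * b := ⟨_, rfl⟩
  obtain ⟨d, hd⟩ : ∃ c, c = b' + b + r := ⟨_, rfl⟩
  have hkpos : 0 < k := by rw [hk]; positivity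
  have hsx : Real.sqrt k ≤ r + b := by
    rw [Real.sqrt_le_left (by positivity), hk]; nlinarith [mul_pos hr hb, sq_nonneg b]
  have hxc : r + b ≤ d := by rw [hd]; linarith
  have hcpos : 0 < d := by rw [hd]; positivity
  refine ⟨k, d, hk, hd, hkpos, hsx.trans hxc, ?_⟩
  have hcv : ConvexOn ℝ (Set.Ici (Real.sqrt k)) (fun x => ∑ i ∈ s, c i * F i
      (opI (G i) (d - x) (opD (rr k x) (opI (G i) (bb k x) phi0)))) := by
    refine conv_fam s c hc0 (convex_Ici _) _ fun i _ => ?_
    exact hF i (Set.Ici (Real.sqrt k)) (convex_Ici _)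
      (fun x => opI (G i) (d - x) (opD (rr k x) (opI (G i) (bb k x) phi0)))
      (fun U => conv_three (G i) hcpos.le hkpos U)
  have hle := hcv.le_max_of_mem_Icc (x := Real.sqrt k) (y := d) (z := r + b)
    (Set.mem_Ici.2 le_rfl) (hsx.trans hxc) ⟨hsx, hxc⟩
  have e0 : bb k (r + b) = b := by
    unfold bb
    have : (r + b) ^ 2 - k = b ^ 2 := by rw [hk]; ring
    rw [this, Real.sqrt_sq hb.le]
  have e1 : rr k (r + b) = r := by
    have := rr_add_bb k (r + b)
    rw [e0] at this; linarith
  have e2 : d - (r + b) = b' := by rw [hd]; ring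
  have e3 : bb k (Real.sqrt k) = 0 := by
    unfold bb
    rw [Real.sq_sqrt hkpos.le]; simp
  have e4 : rr k (Real.sqrt k) = Real.sqrt k := by
    have := rr_add_bb k (Real.sqrt k)
    rw [e3] at this; linarith
  simp only [e0, e1, e2, e3, e4, sub_self, opI_zero] at hle
  rcases le_max_iff.1 hle with h | h
  · left; simpa only [ev_t, ev_f, ev_nil] using h
  · right; simpa only [ev_t, ev_f, ev_nil] using h

lemma filt_propsF (L : List (Bool × ℝ)) :
    mass (filt L) = mass L ∧ en (filt L) = en L ∧ val G s c (filt L) = val G s c L := by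
  have h := filt_props (⊥ : SimpleGraph (Fin 1)) L
  refine ⟨h.1, h.2.1, ?_⟩
  unfold val
  refine sum_congr rfl fun i _ => ?_
  rw [(filt_props (G i) L).2.2]

lemma val_eq (L : List (Bool × ℝ)) : val G s c L = ∑ i ∈ s, c i * ev (G i) L univ := rfl

theorem reduceF (hc : ∀ i ∈ s, 0 ≤ c i) (n : ℕ) : ∀ L : List (Bool × ℝ), L.length ≤ n → NN L →
    GoodF G s c L := by
  induction n with
  | zero =>
    intro L hL _
    have : L = [] := List.length_eq_zero_iff.1 (Nat.le_zero.1 hL)
    subst this
    refine ⟨0, 0, 0, le_rfl, le_rfl, le_rfl, by simp [mass], by simp [en], ?_⟩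
    simp only [val_eq, ev_t, ev_f, opD_zero, opI_zero]
    exact le_rfl
  | succ n ih =>
    intro L hL hN
    by_cases hz : ∃ p ∈ L, p.2 = 0
    · have h1 := filt_length hz
      obtain ⟨a1, a2, a3⟩ := filt_propsF G s c L
      exact (ih (filt L) (by omega) (filt_NN hN)).mono a1 a2 (by rw [a3])
    · push Not at hz
      have hpos : ∀ p ∈ L, 0 < p.2 := fun p hp => lt_of_le_of_ne (hN p hp) (Ne.symm (hz p hp))
      match L, hL, hN, hpos with
      | [], _, _, _ =>
        refine ⟨0, 0, 0, le_rfl, le_rfl, le_rfl, by simp [mass], by simp [en], ?_⟩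
        simp only [val_eq, ev_t, ev_f, opD_zero, opI_zero]
        exact le_rfl
      | [(true, x)], _, hN, _ =>
        refine ⟨0, 0, x, le_rfl, le_rfl, hN (true, x) (by simp), by simp [mass], by simp [en_t, en_f, en_nil, mass_nil], ?_⟩
        simp only [val_eq, ev_t, ev_f, opD_zero, opI_zero]
        exact le_rfl
      | [(false, x)], _, hN, _ =>
        refine ⟨0, x, 0, le_rfl, hN (false, x) (by simp), le_rfl, by simp [mass], by simp [en_t, en_f, en_nil, mass_nil], ?_⟩
        simp only [val_eq, ev_t, ev_f, opD_zero]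
        exact le_rfl
      | [(true, x), (false, y)], _, hN, _ =>
        refine ⟨x, y, 0, hN (true, x) (by simp), hN (false, y) (by simp), le_rfl, by simp [mass], by simp [en_t, en_f, en_nil, mass_nil, mass_cons], ?_⟩
        simp only [val_eq, ev_t, ev_f, opD_zero]
        exact le_rfl
      | [(false, x), (true, y)], _, hN, _ =>
        refine ⟨0, x, y, le_rfl, hN (false, x) (by simp), hN (true, y) (by simp), by simp [mass], by simp [en_t, en_f, en_nil, mass_nil, mass_cons], ?_⟩
        simp only [val_eq, ev_t, ev_f, opD_zero]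
        exact le_rfl
      | (true, x) :: (true, y) :: L', hL, hN, _ =>
        rw [NN_cons, NN_cons] at hN
        obtain ⟨hx, hy, hN'⟩ := hN
        refine (ih ((true, x + y) :: L') (by simp at hL ⊢; omega) (NN_cons.2 ⟨add_nonneg hx hy, hN'⟩)).mono ?_ ?_ ?_
        · simp only [mass_cons]; ring
        · simp only [en_t, mass_cons]; ring
        · simp only [val_eq, ev_t, opD_opD]; exact le_rfl
      | (false, x) :: (false, y) :: L', hL, hN, _ =>
        rw [NN_cons, NN_cons] at hN
        obtain ⟨hx, hy, hN'⟩ := hN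
        refine (ih ((false, x + y) :: L') (by simp at hL ⊢; omega) (NN_cons.2 ⟨add_nonneg hx hy, hN'⟩)).mono ?_ ?_ ?_
        · simp only [mass_cons]; ring
        · simp only [en_f]
        · simp only [val_eq, ev_f, opI_opI]; exact le_rfl
      | (true, x) :: (false, y) :: (false, z) :: L', hL, hN, _ =>
        rw [NN_cons, NN_cons, NN_cons] at hN
        obtain ⟨hx, hy, hz, hN'⟩ := hN
        refine (ih ((true, x) :: (false, y + z) :: L') (by simp at hL ⊢; omega)
          (NN_cons.2 ⟨hx, NN_cons.2 ⟨add_nonneg hy hz, hN'⟩⟩)).mono ?_ ?_ ?_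
        · simp only [mass_cons]; ring
        · simp only [en_t, en_f, mass_cons]; ring
        · simp only [val_eq, ev_t, ev_f, opI_opI]; exact le_rfl
      | (false, x) :: (true, y) :: (true, z) :: L', hL, hN, _ =>
        rw [NN_cons, NN_cons, NN_cons] at hN
        obtain ⟨hx, hy, hz, hN'⟩ := hN
        refine (ih ((false, x) :: (true, y + z) :: L') (by simp at hL ⊢; omega)
          (NN_cons.2 ⟨hx, NN_cons.2 ⟨add_nonneg hy hz, hN'⟩⟩)).mono ?_ ?_ ?_
        · simp only [mass_cons]; ring
        · simp only [en_t, en_f, mass_cons]; ring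
        · simp only [val_eq, ev_t, ev_f, opD_opD]; exact le_rfl
      | [(true, x), (false, y), (true, z)], _, hN, _ =>
        exact ⟨x, y, z, hN (true, x) (by simp), hN (false, y) (by simp), hN (true, z) (by simp), rfl, rfl, le_rfl⟩
      | [(false, x), (true, y), (false, z)], hL, _, hpos =>
        have hx := hpos (false, x) (by simp)
        have hy := hpos (true, y) (by simp)
        have hz := hpos (false, z) (by simp)
        obtain ⟨k, c', hk, hc', hkp, hkc, h⟩ := moveB G s c hc hx hy hz (fun i Φ => Φ univ) (fun i S _ Φ h => h univ)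
        simp only at hk hc'
        rcases h with h | h
        · refine (ih [(false, c' - Real.sqrt k), (true, Real.sqrt k)] (by simp at hL ⊢; omega) ?_).mono ?_ ?_ h
          · rw [NN_cons, NN_cons]; exact ⟨by simpa using hkc, Real.sqrt_nonneg _, NN_nil⟩
          · simp only [mass_cons, mass_nil]; rw [hc']; ring
          · simp only [en_t, en_f, en_nil, mass_cons, mass_nil]
            rw [Real.sq_sqrt hkp.le, hk]; ring
        · refine (ih [(true, rr k c'), (false, bb k c')] (by simp at hL ⊢; omega) ?_).mono ?_ ?_ h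
          · rw [NN_cons, NN_cons]; exact ⟨rr_nonneg hkp.le hkc, bb_nonneg _ _, NN_nil⟩
          · simp only [mass_cons, mass_nil]
            have := rr_add_bb k c'
            linarith
          · simp only [en_t, en_f, en_nil, mass_cons, mass_nil]
            have := curve hkp.le hkc
            rw [hk] at this ⊢
            linarith
      | (true, x) :: (false, y) :: (true, z) :: (true, w) :: L', hL, hN, _ =>
        rw [NN_cons, NN_cons, NN_cons, NN_cons] at hN
        obtain ⟨hx, hy, hz, hw, hN'⟩ := hN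
        refine (ih ((true, x) :: (false, y) :: (true, z + w) :: L') (by simp at hL ⊢; omega)
          (NN_cons.2 ⟨hx, NN_cons.2 ⟨hy, NN_cons.2 ⟨add_nonneg hz hw, hN'⟩⟩⟩)).mono ?_ ?_ ?_
        · simp only [mass_cons]; ring
        · simp only [en_t, en_f, mass_cons]; ring
        · simp only [val_eq, ev_t, ev_f, opD_opD]; exact le_rfl
      | (false, x) :: (true, y) :: (false, z) :: (false, w) :: L', hL, hN, _ =>
        rw [NN_cons, NN_cons, NN_cons, NN_cons] at hN
        obtain ⟨hx, hy, hz, hw, hN'⟩ := hN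
        refine (ih ((false, x) :: (true, y) :: (false, z + w) :: L') (by simp at hL ⊢; omega)
          (NN_cons.2 ⟨hx, NN_cons.2 ⟨hy, NN_cons.2 ⟨add_nonneg hz hw, hN'⟩⟩⟩)).mono ?_ ?_ ?_
        · simp only [mass_cons]; ring
        · simp only [en_t, en_f, mass_cons]; ring
        · simp only [val_eq, ev_t, ev_f, opI_opI]; exact le_rfl
      | (false, x) :: (true, y) :: (false, z) :: (true, w) :: L', hL, hN, hpos =>
        have hx := hpos (false, x) (by simp)
        have hy := hpos (true, y) (by simp)
        have hz := hpos (false, z) (by simp)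
        have hw := hpos (true, w) (by simp)
        simp only at hx hy hz hw
        rw [NN_cons, NN_cons, NN_cons, NN_cons] at hN
        obtain ⟨-, -, -, -, hN'⟩ := hN
        obtain ⟨d1, d2, d3, d4⟩ := move_a_data hx hy hz hw
        rcases moveA G s c hc hx hy hz hw hN' (fun i Φ => Φ univ) (fun i S _ Φ h => h univ) with h | h
        · refine (ih _ (by simp at hL ⊢; omega) ?_).mono ?_ ?_ h
          · rw [NN_cons, NN_cons, NN_cons]
            exact ⟨d1.le, by simp only; linarith, by simp only; linarith, hN'⟩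
          · simp only [mass_cons]; ring
          · simp only [en_t, en_f, mass_cons]
            have : y * z / (z + x) * (z + x) = y * z := by field_simp
            nlinarith [this]
        · refine (ih _ (by simp at hL ⊢; omega) ?_).mono ?_ ?_ h
          · rw [NN_cons, NN_cons, NN_cons]
            exact ⟨by simpa using d4, by simp only; linarith, by simp only; positivity, hN'⟩
          · simp only [mass_cons]; ring
          · simp only [en_t, en_f, mass_cons]
            have : y * z / (y + w) * (y + w) = y * z := by field_simp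
            nlinarith [this]
      | [(true, p), (false, x), (true, y), (false, z)], hL, _, hpos =>
        have hp := hpos (true, p) (by simp)
        have hx := hpos (false, x) (by simp)
        have hy := hpos (true, y) (by simp)
        have hz := hpos (false, z) (by simp)
        simp only at hp hx hy hz
        obtain ⟨k, c', hk, hc', hkp, hkc, h⟩ := moveB G s c hc hx hy hz (fun i Φ => opD p Φ univ)
          (fun i S hS Φ h => conv_opD hS hp.le Φ h univ)
        rcases h with h | h
        · refine (ih [(true, p), (false, c' - Real.sqrt k), (true, Real.sqrt k)] (by simp at hL ⊢; omega) ?_).mono ?_ ?_ h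
          · rw [NN_cons, NN_cons, NN_cons]; exact ⟨hp.le, by simpa using hkc, Real.sqrt_nonneg _, NN_nil⟩
          · simp only [mass_cons, mass_nil]; rw [hc']; ring
          · simp only [en_t, en_f, en_nil, mass_cons, mass_nil]
            rw [Real.sq_sqrt hkp.le, hk, hc']; ring
        · refine (ih [(true, p), (true, rr k c'), (false, bb k c')] (by simp at hL ⊢; omega) ?_).mono ?_ ?_ h
          · rw [NN_cons, NN_cons, NN_cons]; exact ⟨hp.le, rr_nonneg hkp.le hkc, bb_nonneg _ _, NN_nil⟩
          · simp only [mass_cons, mass_nil]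
            have := rr_add_bb k c'
            linarith
          · simp only [en_t, en_f, en_nil, mass_cons, mass_nil]
            have h1 := curve hkp.le hkc
            have h2 := rr_add_bb k c'
            have h3 : p * (rr k c' + (bb k c' + 0)) = p * (x + (y + (z + 0))) := by
              congr 1; linarith
            have h4 : rr k c' ^ 2 + 2 * rr k c' * bb k c' = y ^ 2 + 2 * y * z := by rw [h1, hk]
            linarith
      | (true, p) :: (false, x) :: (true, y) :: (false, z) :: (false, w) :: L', hL, hN, _ =>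
        rw [NN_cons, NN_cons, NN_cons, NN_cons, NN_cons] at hN
        obtain ⟨hp, hx, hy, hz, hw, hN'⟩ := hN
        refine (ih ((true, p) :: (false, x) :: (true, y) :: (false, z + w) :: L') (by simp at hL ⊢; omega)
          (NN_cons.2 ⟨hp, NN_cons.2 ⟨hx, NN_cons.2 ⟨hy, NN_cons.2 ⟨add_nonneg hz hw, hN'⟩⟩⟩⟩)).mono ?_ ?_ ?_
        · simp only [mass_cons]; ring
        · simp only [en_t, en_f, mass_cons]; ring
        · simp only [val_eq, ev_t, ev_f, opI_opI]; exact le_rfl
      | (true, p) :: (false, x) :: (true, y) :: (false, z) :: (true, w) :: L', hL, hN, hpos =>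
        have hp := hpos (true, p) (by simp)
        have hx := hpos (false, x) (by simp)
        have hy := hpos (true, y) (by simp)
        have hz := hpos (false, z) (by simp)
        have hw := hpos (true, w) (by simp)
        simp only at hp hx hy hz hw
        rw [NN_cons, NN_cons, NN_cons, NN_cons, NN_cons] at hN
        obtain ⟨-, -, -, -, -, hN'⟩ := hN
        obtain ⟨d1, d2, d3, d4⟩ := move_a_data hx hy hz hw
        rcases moveA G s c hc hx hy hz hw hN' (fun i Φ => opD p Φ univ)
          (fun i S hS Φ h => conv_opD hS hp.le Φ h univ) with h | h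
        · refine (ih ((true, p) :: (true, y * z / (z + x)) :: (false, z + x) :: (true, y + w - y * z / (z + x)) :: L')
            (by simp at hL ⊢; omega) ?_).mono ?_ ?_ h
          · rw [NN_cons, NN_cons, NN_cons, NN_cons]
            exact ⟨hp.le, d1.le, by simp only; linarith, by simp only; linarith, hN'⟩
          · simp only [mass_cons]; ring
          · simp only [en_t, en_f, mass_cons]
            have : y * z / (z + x) * (z + x) = y * z := by field_simp
            nlinarith [this]
        · refine (ih ((true, p) :: (false, z + x - y * z / (y + w)) :: (true, y + w) :: (false, y * z / (y + w)) :: L')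
            (by simp at hL ⊢; omega) ?_).mono ?_ ?_ h
          · rw [NN_cons, NN_cons, NN_cons, NN_cons]
            exact ⟨hp.le, by simpa using d4, by simp only; linarith, by simp only; positivity, hN'⟩
          · simp only [mass_cons]; ring
          · simp only [en_t, en_f, mass_cons]
            have : y * z / (y + w) * (y + w) = y * z := by field_simp
            nlinarith [this]


/-! ### Nested graphs -/

section nested

variable {W : Type} [Fintype W]

/-- the combination of the homomorphism densities -/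
noncomputable def hd (H : SimpleGraph W) : ℝ :=
  ∑ i ∈ s, c i * (((HM (G i) H).card : ℝ) / (Fintype.card W : ℝ) ^ Fintype.card (V i))

/-- the constant in the error term -/
noncomputable def Cst (V : I → Type) [∀ i, Fintype (V i)] : ℝ :=
  ∑ i ∈ s, c i * (Fintype.card (V i) : ℝ) ^ 4 + 1

theorem exists_nestedF (hc : ∀ i ∈ s, 0 ≤ c i) (H₀ : SimpleGraph W) [Nonempty W] :
    ∃ H : SimpleGraph W, Nested H ∧ EE H = EE H₀ ∧
      hd G s c H₀ ≤ hd G s c H + Cst s c V / (2 * Fintype.card W) := by
  set n : ℝ := (Fintype.card W : ℝ) with hn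
  have hn0 : 0 < n := by rw [hn]; exact_mod_cast Fintype.card_pos
  set C := Cst s c V with hC
  have hC0 : 0 < C := by
    rw [hC]
    unfold Cst
    have : 0 ≤ ∑ i ∈ s, c i * (Fintype.card (V i) : ℝ) ^ 4 :=
      Finset.sum_nonneg fun i hi => mul_nonneg (hc i hi) (by positivity)
    linarith
  set Lam : SimpleGraph W → ℝ := fun H => hd G s c H + C * (Phi H : ℝ) / (2 * n ^ 4) with hLam
  obtain ⟨H, hH1, hH2⟩ := Set.exists_max_image {H : SimpleGraph W | EE H = EE H₀} Lam
    (Set.toFinite _) ⟨H₀, rfl⟩
  refine ⟨H, ?_, hH1, ?_⟩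
  · intro u v huv
    by_contra hcon
    push Not at hcon
    obtain ⟨c1, c2⟩ := hcon
    have p1 : (0 : ℝ) < (PP H u v).card := by exact_mod_cast card_pos.2 c1
    have p2 : (0 : ℝ) < (PP H v u).card := by exact_mod_cast card_pos.2 c2
    have h1 := hH2 (cmp H u v huv) (by simp only [Set.mem_ofPred_eq, EE_cmp]; exact hH1)
    simp only [hLam] at h1
    rw [Phi_cmp] at h1
    push_cast at h1
    set pq : ℝ := ((PP H u v).card : ℝ) * (PP H v u).card with hpq
    have hpq0 : 0 < pq := mul_pos p1 p2
    have h2 : hd G s c H ≤ hd G s c (cmp H u v huv) + (C - 1) * pq / n ^ 4 := by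
      have h3 : ∀ i ∈ s, c i * (((HM (G i) H).card : ℝ) / n ^ Fintype.card (V i)) ≤
          c i * (((HM (G i) (cmp H u v huv)).card : ℝ) / n ^ Fintype.card (V i)) +
          c i * (Fintype.card (V i) : ℝ) ^ 4 * pq / n ^ 4 := by
        intro i hi
        have h4 := good_inj (G i) H u v huv
        have h5 := Bad_bound (G i) H u v huv
        have h4' : ((HM (G i) H).card : ℝ) ≤ (HM (G i) (cmp H u v huv)).card +
            (Bad (G i) H u v).card := by exact_mod_cast h4
        have h5' : n ^ 4 * ((Bad (G i) H u v).card : ℝ) ≤ (Fintype.card (V i) : ℝ) ^ 4 *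
            (pq * n ^ Fintype.card (V i)) := by
          rw [hn, hpq]; exact_mod_cast h5
        have h6 : ((Bad (G i) H u v).card : ℝ) / n ^ Fintype.card (V i) ≤
            (Fintype.card (V i) : ℝ) ^ 4 * pq / n ^ 4 := by
          rw [div_le_div_iff₀ (by positivity) (by positivity)]
          nlinarith
        have h7 : ((HM (G i) H).card : ℝ) / n ^ Fintype.card (V i) ≤
            ((HM (G i) (cmp H u v huv)).card : ℝ) / n ^ Fintype.card (V i) +
            (Fintype.card (V i) : ℝ) ^ 4 * pq / n ^ 4 := by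
          refine le_trans ?_ (add_le_add_right h6 _)
          rw [← add_div]
          exact div_le_div_of_nonneg_right h4' (by positivity)
        have h8 := mul_le_mul_of_nonneg_left h7 (hc i hi)
        rw [mul_add] at h8
        have h9 : c i * ((Fintype.card (V i) : ℝ) ^ 4 * pq / n ^ 4) =
            c i * (Fintype.card (V i) : ℝ) ^ 4 * pq / n ^ 4 := by ring
        rw [h9] at h8
        exact h8
      have h10 := Finset.sum_le_sum h3
      rw [Finset.sum_add_distrib, ← Finset.sum_div, ← Finset.sum_mul] at h10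
      have h11 : ∑ i ∈ s, c i * (Fintype.card (V i) : ℝ) ^ 4 = C - 1 := by
        rw [hC]; unfold Cst; ring
      rw [h11] at h10
      exact h10
    have h12 : C * ((Phi H : ℝ) + 2 * ((PP H u v).card : ℝ) * (PP H v u).card) / (2 * n ^ 4) =
        C * (Phi H : ℝ) / (2 * n ^ 4) + C * pq / n ^ 4 := by
      rw [hpq]; field_simp
    rw [h12] at h1
    have h13 : (C - 1) * pq / n ^ 4 = C * pq / n ^ 4 - pq / n ^ 4 := by ring
    rw [h13] at h2
    have h14 : 0 < pq / n ^ 4 := by positivity
    linarith
  · have h1 := hH2 H₀ rfl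
    simp only [hLam] at h1
    have h2 : (Phi H : ℝ) ≤ n ^ 3 := by rw [hn]; exact_mod_cast Phi_le H
    have h3 : (0 : ℝ) ≤ Phi H₀ := by exact_mod_cast Phi_nonneg H₀
    have h4 : C * (Phi H : ℝ) / (2 * n ^ 4) ≤ C / (2 * n) := by
      rw [div_le_div_iff₀ (by positivity) (by positivity)]
      have : C * (Phi H : ℝ) * (2 * n) ≤ C * n ^ 3 * (2 * n) := by gcongr
      calc _ ≤ C * n ^ 3 * (2 * n) := this
        _ = _ := by ring
    have h5 : 0 ≤ C * (Phi H₀ : ℝ) / (2 * n ^ 4) := by positivity
    linarith

/-- the list of blocks of a nested graph, for all graphs at once -/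
theorem exists_listF {H : SimpleGraph W} (hH : Nested H) (w0 : W) (n : ℕ) :
    ∀ X : Finset W, X.card = n →
    ∃ L : List (Bool × ℝ), NN L ∧ mass L = X.card ∧ eX H X ≤ en L ∧ en L ≤ eX H X + X.card ∧
      ∀ i, ∀ U : Finset (V i), ((hs (G i) H w0 U X).card : ℝ) ≤ ev (G i) L U := by
  induction n with
  | zero =>
    intro X hX
    have hX0 : X = ∅ := card_eq_zero.1 hX
    subst hX0
    refine ⟨[], NN_nil, by simp [mass_nil], by simp [eX, en_nil], by simp [eX, en_nil], ?_⟩
    intro i U
    rw [ev_nil]
    unfold phi0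
    split_ifs with h
    · subst h
      have : (hs (G i) H w0 ∅ ∅).card ≤ ({fun _ => w0} : Finset (V i → W)).card := by
        apply card_le_card
        intro φ hφ
        rw [mem_hs] at hφ
        rw [mem_singleton]
        funext v
        exact hφ.2.1 v (by simp)
      rw [card_singleton] at this
      exact_mod_cast this
    · have : hs (G i) H w0 U ∅ = ∅ := by
        rw [eq_empty_iff_forall_notMem]
        intro φ hφ
        rw [mem_hs] at hφ
        obtain ⟨v, hv⟩ := nonempty_iff_ne_empty.2 h
        have := hφ.1 v hv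
        simp at this
      rw [this]; simp
  | succ n ih =>
    intro X hX
    have hXne : X.Nonempty := by rw [← card_pos]; omega
    obtain ⟨x, hx, hcase⟩ := exists_dom_iso hH hXne
    obtain ⟨L, hN, hm, he1, he2, hU⟩ := ih (X.erase x) (by rw [card_erase_of_mem hx]; omega)
    have hc : ((X.erase x).card : ℝ) = X.card - 1 := by
      rw [card_erase_of_mem hx, Nat.cast_sub (by omega)]; simp
    have hErase := eX_erase H X hx
    rcases hcase with hdom | hiso
    · have hsum : ∑ b ∈ X.erase x, (if H.Adj x b then (1:ℝ) else 0) = X.card - 1 := by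
        rw [sum_congr rfl (g := fun _ => (1:ℝ)), sum_const, nsmul_eq_mul, mul_one, hc]
        intro b hb
        rw [mem_erase] at hb
        rw [if_pos (hdom b hb.2 hb.1)]
      rw [hsum] at hErase
      refine ⟨(true, 1) :: L, NN_cons.2 ⟨by norm_num, hN⟩, ?_, ?_, ?_, ?_⟩
      · rw [mass_cons, hm, hc]; simp
      · rw [en_t, hm, hc]; linarith
      · rw [en_t, hm, hc]; linarith
      · intro i U
        have h1 := hs_step (G i) H w0 U X x U.powerset
          (fun φ _ => by rw [mem_powerset]; exact filter_subset _ _)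
        rw [ev_t]
        unfold opD
        calc ((hs (G i) H w0 U X).card : ℝ)
            ≤ ((∑ S ∈ U.powerset, (hs (G i) H w0 (U \ S) (X.erase x)).card : ℕ) : ℝ) := by
              exact_mod_cast h1
          _ = ∑ S ∈ U.powerset, ((hs (G i) H w0 (U \ S) (X.erase x)).card : ℝ) := by
              push_cast; rfl
          _ ≤ ∑ S ∈ U.powerset, 1 ^ S.card * ev (G i) L (U \ S) := by
              apply sum_le_sum
              intro S _
              rw [one_pow, one_mul]
              exact hU i _
    · have hsum : ∑ b ∈ X.erase x, (if H.Adj x b then (1:ℝ) else 0) = 0 := by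
        apply sum_eq_zero
        intro b hb
        rw [mem_erase] at hb
        rw [if_neg (hiso b hb.2)]
      rw [hsum] at hErase
      refine ⟨(false, 1) :: L, NN_cons.2 ⟨by norm_num, hN⟩, ?_, ?_, ?_, ?_⟩
      · rw [mass_cons, hm, hc]; simp
      · rw [en_f]; linarith
      · rw [en_f]; linarith
      · intro i U
        have h1 := hs_step (G i) H w0 U X x (iso (G i) U).powerset (fun φ hφ => by
          rw [mem_powerset]
          intro v hv
          rw [mem_filter] at hv
          rw [mem_hs] at hφ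
          simp only [iso, mem_filter]
          refine ⟨hv.1, ?_⟩
          intro w hw hvw
          have h4 := hφ.2.2 v hv.1 w hw hvw
          rw [hv.2] at h4
          exact hiso _ (hφ.1 w hw) h4)
        rw [ev_f]
        unfold opI
        calc ((hs (G i) H w0 U X).card : ℝ)
            ≤ ((∑ S ∈ (iso (G i) U).powerset, (hs (G i) H w0 (U \ S) (X.erase x)).card : ℕ) :
                ℝ) := by
              exact_mod_cast h1
          _ = ∑ S ∈ (iso (G i) U).powerset, ((hs (G i) H w0 (U \ S) (X.erase x)).card : ℝ) := by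
              push_cast; rfl
          _ ≤ ∑ S ∈ (iso (G i) U).powerset, 1 ^ S.card * ev (G i) L (U \ S) := by
              apply sum_le_sum
              intro S _
              rw [one_pow, one_mul]
              exact hU i _

/-- summary for nested graphs -/
theorem nested_listF {H : SimpleGraph W} (hH : Nested H) [Nonempty W] :
    ∃ L : List (Bool × ℝ), NN L ∧ mass L = Fintype.card W ∧ (EE H : ℝ) ≤ en L ∧
      en L ≤ EE H + Fintype.card W ∧ ∀ i, ((HM (G i) H).card : ℝ) ≤ ev (G i) L univ := by
  obtain ⟨w0⟩ := (inferInstance : Nonempty W)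
  obtain ⟨L, h1, h2, h3, h4, h5⟩ := exists_listF G hH w0 _ univ rfl
  rw [eX_univ] at h3 h4
  refine ⟨L, h1, by rw [h2, card_univ], h3, by rw [card_univ] at h4; exact h4, ?_⟩
  intro i
  have := h5 i univ
  have he : hs (G i) H w0 univ univ = HM (G i) H := by
    ext φ
    rw [mem_hs, mem_HM]
    simp
  rw [he] at this
  exact this

end nested

/-- the combination of the densities of a weighted class graph -/
noncomputable def tv (w : Cls → ℝ) : ℝ := ∑ i ∈ s, c i * tval (G i) w

lemma reduce_h {n : ℝ} (hn : 0 < n) (hc : ∀ i ∈ s, 0 ≤ c i) (L : List (Bool × ℝ)) (hL : NN L)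
    (hm : mass L = n) :
    ∃ w : Cls → ℝ, w ∈ KK ∧ n ^ 2 * egy w = en L ∧
      ∑ i ∈ s, c i * (ev (G i) L univ / n ^ Fintype.card (V i)) ≤ tv G s c w := by
  -- rescale the coefficients
  obtain ⟨r, b, y, hr, hb, hy, hm', he, hv⟩ := reduceF G s
    (fun i => c i / n ^ Fintype.card (V i)) (fun i hi => div_nonneg (hc i hi) (by positivity))
    L.length L le_rfl hL
  rw [hm] at hm'
  simp only [mass_cons, mass_nil] at hm'
  simp only [en_t, en_f, en_nil, mass_cons, mass_nil] at he
  have hegy : n ^ 2 * egy (wts (r / n) (b / n) (y / n)) = r ^ 2 + 2 * r * (b + y) + y ^ 2 := by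
    unfold egy wts
    field_simp
  refine ⟨wts (r / n) (b / n) (y / n), ⟨?_, ?_⟩, ?_, ?_⟩
  · intro d
    cases d <;> simp only [wts] <;> positivity
  · simp only [wts]
    field_simp
    linarith
  · rw [hegy]
    linarith
  · have h1 : ∑ i ∈ s, c i * (ev (G i) L univ / n ^ Fintype.card (V i)) =
        val G s (fun i => c i / n ^ Fintype.card (V i)) L := by
      unfold val
      refine sum_congr rfl fun i _ => ?_
      ring
    rw [h1]
    refine hv.trans (le_of_eq ?_)
    unfold val tv
    refine sum_congr rfl fun i _ => ?_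
    rw [tshape]
    have ht : tval (G i) (wts r b y) =
        n ^ Fintype.card (V i) * tval (G i) (wts (r / n) (b / n) (y / n)) := by
      rw [← tval_smul]
      congr 1
      funext d
      cases d <;> simp only [wts] <;> field_simp
    rw [ht]
    field_simp

/-- upper bound for arbitrary graphs, with error terms -/
theorem upperF {W : Type} [Fintype W] [Nonempty W] (hc : ∀ i ∈ s, 0 ≤ c i) (H : SimpleGraph W) :
    ∃ w : Cls → ℝ, w ∈ KK ∧
      (EE H : ℝ) / (Fintype.card W : ℝ) ^ 2 ≤ egy w ∧
      egy w ≤ (EE H : ℝ) / (Fintype.card W : ℝ) ^ 2 + 1 / Fintype.card W ∧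
      hd G s c H ≤ tv G s c w + Cst s c V / (2 * Fintype.card W) := by
  obtain ⟨H', hN, hE, hH⟩ := exists_nestedF G s c hc H
  obtain ⟨L, h1, h2, h3, h4, h5⟩ := nested_listF G hN
  have hn : (0:ℝ) < Fintype.card W := by exact_mod_cast Fintype.card_pos
  obtain ⟨w, hw, he, hv⟩ := reduce_h G s c hn hc L h1 h2
  set n : ℝ := (Fintype.card W : ℝ) with hnn
  rw [hE] at h3 h4
  rw [← he] at h3 h4
  refine ⟨w, hw, ?_, ?_, ?_⟩
  · rw [div_le_iff₀ (by positivity)]
    linarith
  · have h6 : (EE H : ℝ) / n ^ 2 + 1 / n = (EE H + n) / n ^ 2 := by field_simp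
    rw [h6, le_div_iff₀ (by positivity)]
    linarith
  · refine hH.trans (add_le_add_left ?_ _)
    refine le_trans ?_ hv
    unfold hd
    refine sum_le_sum fun i hi => ?_
    refine mul_le_mul_of_nonneg_left ?_ (hc i hi)
    exact div_le_div_of_nonneg_right (h5 i) (by positivity)

/-- the closed region below the curve -/
def CCF : Set (ℝ × ℝ) := {p | ∃ w ∈ KK, egy w = p.1 ∧ p.2 ≤ tv G s c w}

lemma tv_continuous : Continuous (tv G s c) := by
  unfold tv
  exact continuous_finsetSum _ fun i _ => continuous_const.mul (tval_continuous (G i))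

lemma CCF_closed : IsClosed (CCF G s c) := by
  haveI : CompactSpace KK := isCompact_iff_compactSpace.1 KK_compact
  have h1 : IsClosed {x : KK × (ℝ × ℝ) | egy (x.1 : Cls → ℝ) = x.2.1 ∧
      x.2.2 ≤ tv G s c (x.1 : Cls → ℝ)} := by
    apply IsClosed.and
    · exact isClosed_eq (egy_continuous.comp (continuous_subtype_val.comp continuous_fst))
        (by fun_prop)
    · exact isClosed_le (by fun_prop)
        ((tv_continuous G s c).comp (continuous_subtype_val.comp continuous_fst))
  have h2 := (isClosedMap_snd_of_compactSpace (X := KK) (Y := ℝ × ℝ)) _ h1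
  have h3 : CCF G s c = Prod.snd '' {x : KK × (ℝ × ℝ) | egy (x.1 : Cls → ℝ) = x.2.1 ∧
      x.2.2 ≤ tv G s c (x.1 : Cls → ℝ)} := by
    ext p
    simp only [CCF, Set.mem_ofPred_eq, Set.mem_image]
    constructor
    · rintro ⟨w, hw, h3, h4⟩
      exact ⟨(⟨w, hw⟩, p), ⟨h3, h4⟩, rfl⟩
    · rintro ⟨⟨w, p'⟩, ⟨h3, h4⟩, rfl⟩
      exact ⟨w, w.2, h3, h4⟩
  rw [h3]
  exact h2

theorem hd_blow {W : Type} [Fintype W] (H : SimpleGraph W) (m : ℕ) (hm : 0 < m) [Nonempty W] :
    hd G s c (blow H m) = hd G s c H := by
  unfold hd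
  refine sum_congr rfl fun i _ => ?_
  rw [HM_blow, Fintype.card_prod, Fintype.card_fin]
  have h1 : (0 : ℝ) < m := by exact_mod_cast hm
  have h2 : (0 : ℝ) < Fintype.card W := by exact_mod_cast Fintype.card_pos
  push_cast
  rw [mul_pow]
  field_simp

/-- the exact upper bound for every finite graph -/
theorem mem_CCF {W : Type} [Fintype W] [Nonempty W] (hc : ∀ i ∈ s, 0 ≤ c i) (H : SimpleGraph W) :
    ((EE H : ℝ) / (Fintype.card W : ℝ) ^ 2, hd G s c H) ∈ CCF G s c := by
  have hn : (0:ℝ) < Fintype.card W := by exact_mod_cast Fintype.card_pos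
  set n : ℝ := (Fintype.card W : ℝ) with hnn
  set A : ℝ := (EE H : ℝ) / n ^ 2 with hA
  set t : ℝ := hd G s c H with ht
  set K : ℝ := Cst s c V with hK
  have key : ∀ m : ℕ, ∃ w : Cls → ℝ, w ∈ KK ∧ A ≤ egy w ∧ egy w ≤ A + 1 / (n * (m + 1)) ∧
      t - K / (2 * (n * (m + 1))) ≤ tv G s c w := by
    intro m
    haveI : Nonempty (Fin (m + 1)) := ⟨0⟩
    obtain ⟨w, h1, h3, h4, h5⟩ := upperF G s c hc (blow H (m + 1))
    have hm : (0:ℝ) < (m:ℝ) + 1 := by positivity
    have hcard : ((Fintype.card (W × Fin (m + 1)) : ℕ) : ℝ) = n * ((m:ℝ) + 1) := by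
      rw [Fintype.card_prod, Fintype.card_fin]; push_cast; rw [← hnn]
    rw [hcard, EE_blow] at h3 h4
    rw [hcard, hd_blow G s c H (m + 1) (Nat.succ_pos m)] at h5
    have e1 : ((((m + 1 : ℕ) : ℤ) ^ 2 * EE H : ℤ) : ℝ) / (n * ((m:ℝ) + 1)) ^ 2 = A := by
      rw [hA]; push_cast; field_simp
    rw [e1] at h3 h4
    exact ⟨w, h1, h3, h4, by linarith⟩
  choose w hw using key
  have hmem : ∀ m : ℕ, (egy (w m), t - K / (2 * (n * (m + 1)))) ∈ CCF G s c :=
    fun m => ⟨w m, (hw m).1, rfl, (hw m).2.2.2⟩
  have hlim0 : Tendsto (fun m : ℕ => (m : ℝ) + 1) atTop atTop :=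
    tendsto_atTop_add_const_right _ _ tendsto_natCast_atTop_atTop
  have hlim1 : Tendsto (fun m : ℕ => n * ((m : ℝ) + 1)) atTop atTop :=
    hlim0.const_mul_atTop hn
  have hlim2 : Tendsto (fun m : ℕ => 1 / (n * ((m : ℝ) + 1))) atTop (𝓝 0) :=
    hlim1.const_div_atTop 1
  have hlim3 : Tendsto (fun m : ℕ => K / (2 * (n * ((m : ℝ) + 1)))) atTop (𝓝 0) :=
    (hlim1.const_mul_atTop (by norm_num : (0:ℝ) < 2)).const_div_atTop K
  have hE : Tendsto (fun m => egy (w m)) atTop (𝓝 A) := by
    refine tendsto_of_tendsto_of_tendsto_of_le_of_le tendsto_const_nhds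
      (h := fun m : ℕ => A + 1 / (n * ((m : ℝ) + 1))) ?_ (fun m => (hw m).2.1)
      (fun m => (hw m).2.2.1)
    simpa using hlim2.const_add A
  have hT : Tendsto (fun m : ℕ => t - K / (2 * (n * ((m:ℝ) + 1)))) atTop (𝓝 t) := by
    simpa using hlim3.const_sub t
  exact (CCF_closed G s c).mem_of_tendsto (hE.prodMk_nhds hT) (Eventually.of_forall hmem)

end Pool.Agent.Y375.TG
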